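import Mathlib
import Pool.Agent.H659R2.PC

/-!
# The multiplicity of the eigenvalue zero along pencils and the Fitting projection
-/

set_option autoImplicit false
set_option linter.unusedSectionVars false

open Module Polynomial

namespace H300R3.LTS

variable {K : Type*} [Field K] {n : Type*} [Fintype n] [DecidableEq n]

/-- the multiplicity of the eigenvalue zero -/
noncomputable def zm (C : Matrix n n K) : ℕ := C.charpoly.rootMultiplicity 0

theorem le_zm_iff (C : Matrix n n K) (z : ℕ) : z ≤ zm C ↔ (X : K[X]) ^ z ∣ C.charpoly := by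
  rw [zm, Polynomial.le_rootMultiplicity_iff (Matrix.charpoly_monic C).ne_zero, map_zero, sub_zero]

theorem zm_eq_finrank (C : Matrix n n K) :
    zm C = finrank K (LinearMap.ker ((Matrix.toLin' C) ^ Fintype.card n)) := by
  rw [zm, ← Matrix.charpoly_toLin', ← LinearMap.finrank_maxGenEigenspace_eq]
  rw [Module.End.maxGenEigenspace_eq_genEigenspace_finrank, Module.finrank_fintype_fun_eq_card,
    Module.End.genEigenspace_zero_nat]

theorem zm_conj (g : (Matrix n n K)ˣ) (C : Matrix n n K) :
    zm ((g : Matrix n n K) * C * (↑g⁻¹ : Matrix n n K)) = zm C := by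
  rw [zm, zm, Matrix.coe_units_inv, Matrix.charpoly_units_conj]

theorem zm_smul {c : K} (hc : c ≠ 0) (C : Matrix n n K) : zm (c • C) = zm C := by
  rw [zm_eq_finrank, zm_eq_finrank, map_smul, _root_.smul_pow, LinearMap.ker_smul _ _ (pow_ne_zero _ hc)]

theorem zm_eq_zero_iff (C : Matrix n n K) : zm C = 0 ↔ C.det ≠ 0 := by
  rw [zm, Polynomial.rootMultiplicity_eq_zero_iff]
  rw [Polynomial.IsRoot.def, Matrix.eval_charpoly, map_zero, zero_sub, Matrix.det_neg]
  constructor
  · intro h h0
    rw [h0, mul_zero] at h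
    exact (Matrix.charpoly_monic C).ne_zero (h rfl)
  · intro h h0
    exact absurd ((mul_eq_zero.1 h0).resolve_left (pow_ne_zero _ (by simp))) h

theorem zm_pencil [Infinite K] (A B : Matrix n n K) (z : ℕ) (T : Finset K)
    (hT : Fintype.card n < T.card) (h : ∀ t ∈ T, z ≤ zm (A + t • B)) (t : K) :
    z ≤ zm (A + t • B) := by
  classical
  rw [le_zm_iff]
  -- for fixed `x`, the value of the characteristic polynomial is a polynomial in `t`
  have hval : ∀ x : K, ∃ q : K[X], q.natDegree ≤ Fintype.card n ∧
      ∀ s : K, q.eval s = (A + s • B).charpoly.eval x := by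
    intro x
    refine ⟨((X : K[X]) • (-B).map C + (Matrix.scalar n x - A).map C).det,
      Polynomial.natDegree_det_X_add_C_le _ _, fun s => ?_⟩
    rw [Matrix.eval_charpoly, ← Polynomial.coe_evalRingHom, RingHom.map_det]
    congr 1
    ext i j
    simp only [RingHom.mapMatrix_apply, Matrix.map_apply, Matrix.add_apply, Matrix.smul_apply,
      Matrix.sub_apply, Matrix.neg_apply, Polynomial.coe_evalRingHom, Polynomial.eval_add,
      smul_eq_mul, Polynomial.eval_mul, Polynomial.eval_X, Polynomial.eval_C]
    ring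
  have hkey : (A + t • B).charpoly
      = ∑ s ∈ T, C ((Lagrange.basis T id s).eval t) * (A + s • B).charpoly := by
    apply Polynomial.funext
    intro x
    obtain ⟨q, hq, hqe⟩ := hval x
    have hdeg : q.degree < T.card := by
      refine lt_of_le_of_lt Polynomial.degree_le_natDegree ?_
      exact_mod_cast lt_of_le_of_lt hq hT
    have h1 := Lagrange.eq_interpolate (s := T) (v := id) (f := q) (Set.injOn_id _) hdeg
    rw [← hqe t, h1, Lagrange.interpolate_apply, Polynomial.eval_finsetSum,
      Polynomial.eval_finsetSum]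
    refine Finset.sum_congr rfl fun s _ => ?_
    rw [Polynomial.eval_mul, Polynomial.eval_mul, Polynomial.eval_C, Polynomial.eval_C, id, hqe s,
      mul_comm]
  rw [hkey]
  refine Finset.dvd_sum fun s hs => ?_
  exact Dvd.dvd.mul_left ((le_zm_iff _ _).1 (h s hs)) _

/-- `P` is the projection on the generalised kernel of `A` along its generalised image -/
structure Fit (A P : Matrix n n K) : Prop where
  idem : P * P = P
  comm : Commute A P
  nil : ∃ N : ℕ, A ^ N * P = 0
  unit : IsUnit (A + P)

theorem exists_fit (A : Matrix n n K) : ∃ P, Fit A P := by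
  obtain ⟨q, N, hid, hN⟩ := H659R2.PC.fitting A
  set E : Matrix n n K := A * aeval A q with hE
  have hcq : Commute A (aeval A q) := by
    have : Commute (aeval A (X : K[X])) (aeval A q) := by
      rw [commute_iff_eq, ← map_mul, ← map_mul, mul_comm]
    rwa [aeval_X] at this
  have hcE : Commute A E := (Commute.refl A).mul_right hcq
  have hcqE : Commute (aeval A q) E := hcq.symm.mul_right (Commute.refl _)
  have hEE : E * E = E := hid
  refine ⟨1 - E, ?_, ?_, ⟨N, hN⟩, ?_⟩
  · rw [mul_sub, sub_mul, one_mul, mul_one, sub_mul, one_mul, hEE]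
    abel
  · exact (Commute.one_right A).sub_right hcE
  · have hP0 : (1 - E) * E = 0 := by rw [sub_mul, one_mul, hEE, sub_self]
    have h0P : E * (1 - E) = 0 := by rw [mul_sub, mul_one, hEE, sub_self]
    have hPP : (1 - E) * (1 - E) = 1 - E := by
      rw [mul_sub, sub_mul, one_mul, mul_one, sub_mul, one_mul, hEE]
      abel
    have hu : IsUnit (A * E + (1 - E)) := by
      apply Matrix.isUnit_of_mul_eq_one' (B := aeval A q * E + (1 - E))
      have e1 : A * E * (aeval A q * E) = E := by
        rw [mul_assoc, ← mul_assoc E, ← hcqE.eq, mul_assoc, hEE, ← mul_assoc, ← hE, hEE]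
      have e2 : A * E * (1 - E) = 0 := by rw [mul_assoc, h0P, mul_zero]
      have e3 : (1 - E) * (aeval A q * E) = 0 := by
        rw [hcqE.eq, ← mul_assoc, hP0, zero_mul]
      rw [add_mul, mul_add, mul_add, e1, e2, e3, hPP]
      abel
    have hnil : IsNilpotent (A * (1 - E)) := by
      refine ⟨N + 1, ?_⟩
      rw [((Commute.one_right A).sub_right hcE).mul_pow, pow_succ A, mul_assoc,
        pow_succ' (1 - E), ← mul_assoc A, ((Commute.one_right A).sub_right hcE).eq]
      have : ∀ k : ℕ, (1 - E) ^ k * (1 - E) = 1 - E := by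
        intro k
        induction k with
        | zero => simp
        | succ k ih => rw [pow_succ', mul_assoc, ih, hPP]
      rw [mul_assoc, ← mul_assoc, hN, zero_mul]
    have e : A + (1 - E) = (A * E + (1 - E)) + A * (1 - E) := by
      rw [mul_sub, mul_one]
      abel
    rw [e]
    refine hnil.isUnit_add_left_of_commute hu ?_
    have c1 : Commute A (1 - E) := (Commute.one_right A).sub_right hcE
    have c2 : Commute E (1 - E) := (Commute.one_right E).sub_right (Commute.refl E)
    refine Commute.add_right ?_ ?_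
    · exact ((Commute.refl A).mul_right hcE).mul_left ((c1.symm).mul_right c2.symm)
    · exact c1.mul_left (Commute.refl _)

section General

variable {C P : Matrix n n K}

/-- the rank of a projection -/
noncomputable def rk (P : Matrix n n K) : ℕ := finrank K (LinearMap.range (Matrix.toLin' P))

theorem rk_le_zm (_hP : P * P = P) {N : ℕ} (h : C ^ N * P = 0) : rk P ≤ zm C := by
  rw [zm_eq_finrank, rk]
  apply Submodule.finrank_mono
  rintro _ ⟨v, rfl⟩
  have h1 : Matrix.toLin' P v ∈ LinearMap.ker ((Matrix.toLin' C) ^ N) := by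
    rw [LinearMap.mem_ker, ← Matrix.toLin'_pow, ← LinearMap.comp_apply, ← Matrix.toLin'_mul, h]
    simp
  have h2 := Module.End.ker_pow_le_ker_pow_finrank (Matrix.toLin' C) N h1
  rwa [Module.finrank_fintype_fun_eq_card] at h2

theorem pow_mul_compl (hP : P * P = P) (_hc : Commute C P) (m : ℕ) :
    (C + P) ^ m * (1 - P) = C ^ m * (1 - P) := by
  induction m with
  | zero => simp
  | succ m ih =>
    have h1 : (C + P) * (1 - P) = (1 - P) * C := by
      rw [add_mul, mul_sub, mul_sub, mul_one, mul_one, hP, sub_self, add_zero, sub_mul, one_mul,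
        _hc.eq]
    have h2 : C * (1 - P) = (1 - P) * C := by
      rw [mul_sub, mul_one, sub_mul, one_mul, _hc.eq]
    rw [pow_succ, mul_assoc, h1, ← mul_assoc, ih, pow_succ, mul_assoc, mul_assoc, h2]

theorem ker_le (hP : P * P = P) (hc : Commute C P) (hu : IsUnit (C + P)) :
    LinearMap.ker ((Matrix.toLin' C) ^ Fintype.card n) ≤ LinearMap.range (Matrix.toLin' P) := by
  intro v hv
  refine ⟨v, ?_⟩
  rw [LinearMap.mem_ker, ← Matrix.toLin'_pow, Matrix.toLin'_apply] at hv
  rw [Matrix.toLin'_apply]
  obtain ⟨U, hU⟩ := hu.pow (Fintype.card n)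
  have hcP : Commute (C ^ Fintype.card n) (1 - P) :=
    ((Commute.one_right C).sub_right hc).pow_left _
  have h1 : (C + P) ^ Fintype.card n * (1 - P) = (1 - P) * C ^ Fintype.card n := by
    rw [pow_mul_compl hP hc, hcP.eq]
  have h2 : ((C + P) ^ Fintype.card n).mulVec ((1 - P).mulVec v) = 0 := by
    rw [Matrix.mulVec_mulVec, h1, ← Matrix.mulVec_mulVec, hv, Matrix.mulVec_zero]
  have h3 : (1 - P).mulVec v = 0 := by
    have := congrArg (fun w => (↑U⁻¹ : Matrix n n K).mulVec w) h2
    simp only [Matrix.mulVec_zero] at this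
    rwa [← hU, Matrix.mulVec_mulVec, Units.inv_mul, Matrix.one_mulVec] at this
  rw [Matrix.sub_mulVec, Matrix.one_mulVec, sub_eq_zero] at h3
  exact h3.symm

theorem zm_le_rk (hP : P * P = P) (hc : Commute C P) (hu : IsUnit (C + P)) : zm C ≤ rk P := by
  rw [zm_eq_finrank, rk]
  exact Submodule.finrank_mono (ker_le hP hc hu)

theorem pow_mul_eq_zero (hP : P * P = P) (hc : Commute C P) (hu : IsUnit (C + P))
    (h : rk P ≤ zm C) : C ^ Fintype.card n * P = 0 := by
  have h1 := ker_le hP hc hu
  have h2 : LinearMap.ker ((Matrix.toLin' C) ^ Fintype.card n)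
      = LinearMap.range (Matrix.toLin' P) := by
    apply Submodule.eq_of_le_of_finrank_le h1
    rw [← zm_eq_finrank]
    exact h
  apply Matrix.toLin'.injective
  rw [map_zero]
  apply LinearMap.ext
  intro v
  have h3 : Matrix.toLin' P v ∈ LinearMap.ker ((Matrix.toLin' C) ^ Fintype.card n) := by
    rw [h2]
    exact ⟨v, rfl⟩
  rw [LinearMap.mem_ker, ← Matrix.toLin'_pow, ← LinearMap.comp_apply, ← Matrix.toLin'_mul] at h3
  rw [h3]
  rfl

end General

theorem Fit.rk_eq {A P : Matrix n n K} (h : Fit A P) : rk P = zm A := by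
  obtain ⟨N, hN⟩ := h.nil
  exact le_antisymm (rk_le_zm h.idem hN) (zm_le_rk h.idem h.comm h.unit)

/-- if the multiplicity does not drop along `A + t X` then `X P` is nilpotent -/
theorem Fit.nilpotent_of_pencil [Infinite K] {A P X₀ : Matrix n n K} (h : Fit A P)
    (hX : Commute X₀ P) (T : Finset K) (hT : Fintype.card n < T.card)
    (hz : ∀ t ∈ T, zm A ≤ zm (A + t • X₀)) : IsNilpotent (X₀ * P) := by
  have hall := zm_pencil A X₀ (zm A) T hT hz
  refine ⟨Fintype.card n, ?_⟩
  rw [hX.mul_pow]
  -- the determinant of `s (A + P) + X₀`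
  set D : K[X] := ((X : K[X]) • (A + P).map C + X₀.map C).det with hD
  have hD0 : D ≠ 0 := by
    intro h0
    have h1 := Polynomial.coeff_det_X_add_C_card (A + P) X₀
    rw [← hD, h0, coeff_zero] at h1
    exact ((Matrix.isUnit_iff_isUnit_det _).1 h.unit).ne_zero h1.symm
  have hDe : ∀ s : K, D.eval s = (s • (A + P) + X₀).det := by
    intro s
    rw [hD, ← Polynomial.coe_evalRingHom, RingHom.map_det]
    congr 1
    ext i j
    simp [Matrix.map_apply, Matrix.add_apply, Matrix.smul_apply]
    ring
  have hgood : ∀ s : K, s ≠ 0 → D.eval s ≠ 0 →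
      (s • A + X₀) ^ Fintype.card n * P = 0 := by
    intro s hs hDs
    have hc : Commute (A + s⁻¹ • X₀) P := h.comm.add_left (hX.smul_left _)
    have e1 : s • (A + s⁻¹ • X₀ + P) = s • (A + P) + X₀ := by
      rw [smul_add, smul_add, smul_smul, mul_inv_cancel₀ hs, one_smul, smul_add]
      abel
    have hu : IsUnit (A + s⁻¹ • X₀ + P) := by
      rw [Matrix.isUnit_iff_isUnit_det, isUnit_iff_ne_zero]
      intro h0
      rw [hDe, ← e1, Matrix.det_smul, h0, mul_zero] at hDs
      exact hDs rfl
    have h1 := pow_mul_eq_zero h.idem hc hu (by rw [h.rk_eq]; exact hall _)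
    have e2 : s • A + X₀ = s • (A + s⁻¹ • X₀) := by
      rw [smul_add, smul_smul, mul_inv_cancel₀ hs, one_smul]
    rw [e2, _root_.smul_pow, smul_mul_assoc, h1, smul_zero]
  -- polynomial identity
  set M : Matrix n n K[X] := ((X : K[X]) • A.map C + X₀.map C) ^ Fintype.card n * P.map C with hM
  have hMe : ∀ s : K, M.map (Polynomial.eval s) = (s • A + X₀) ^ Fintype.card n * P := by
    intro s
    have e1 : M.map (Polynomial.eval s) = (Polynomial.evalRingHom s).mapMatrix M := rfl
    rw [e1, hM, map_mul, map_pow]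
    congr 1
    · congr 1
      ext i j
      simp [Matrix.map_apply, Matrix.add_apply, Matrix.smul_apply]
      ring
    · ext i j
      simp
  have hM0 : M = 0 := by
    ext1 i j
    change M i j = 0
    by_contra hne
    have hfin : Set.Finite {s : K | (M i j * (D * X)).IsRoot s} :=
      Polynomial.finite_setOfPred_isRoot (mul_ne_zero hne (mul_ne_zero hD0 X_ne_zero))
    obtain ⟨s, hs⟩ := Set.Infinite.nonempty (Set.Finite.infinite_compl hfin)
    apply hs
    change (M i j * (D * X)).eval s = 0
    rw [eval_mul, eval_mul, eval_X]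
    by_cases h1 : s = 0
    · rw [h1]; ring
    · by_cases h2 : D.eval s = 0
      · rw [h2]; ring
      · have h3 := congrFun (congrFun ((hMe s).trans (hgood s h1 h2)) i) j
        have h4 : (M i j).eval s = 0 := h3
        rw [h4, zero_mul]
  have h0 := hMe 0
  rw [hM0, zero_smul, zero_add] at h0
  have hPP : ∀ k : ℕ, P ^ (k + 1) = P := by
    intro k
    induction k with
    | zero => simp
    | succ k ih => rw [pow_succ, ih, h.idem]
  rcases Nat.eq_zero_or_pos (Fintype.card n) with hn | hn
  · have : IsEmpty n := Fintype.card_eq_zero_iff.1 hn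
    exact Subsingleton.elim _ _
  · obtain ⟨k, hk⟩ : ∃ k, Fintype.card n = k + 1 := ⟨Fintype.card n - 1, by omega⟩
    rw [hk, hPP, ← hk, ← h0]
    ext i j
    simp

/-! ### the Fitting null part of `ad A` -/

/-- `X ↦ A X - X A` -/
noncomputable def adm (A : Matrix n n K) : Module.End K (Matrix n n K) :=
  LinearMap.mulLeft K A - LinearMap.mulRight K A

theorem adm_apply (A Y : Matrix n n K) : adm A Y = A * Y - Y * A := rfl

theorem key1 {A P Y : Matrix n n K} {N N' : ℕ} (h1 : ((adm A) ^ N) Y = 0) (h2 : A ^ N' * P = 0) :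
    A ^ (N + N') * Y * P = 0 := by
  have hc : Commute (LinearMap.mulRight K A) (adm A) := by
    refine Commute.sub_right ?_ (Commute.refl _)
    exact (LinearMap.commute_mulLeft_right A A).symm
  have e : LinearMap.mulLeft K A = LinearMap.mulRight K A + adm A := by
    rw [adm]; abel
  have e2 : A ^ (N + N') * Y = ((LinearMap.mulLeft K A) ^ (N + N')) Y := by
    rw [LinearMap.pow_mulLeft]
    rfl
  rw [e2, e, hc.add_pow, LinearMap.sum_apply, Finset.sum_mul]
  refine Finset.sum_eq_zero fun i hi => ?_
  rw [Module.End.mul_apply, Module.End.mul_apply]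
  have e3 : (((N + N').choose i : ℕ) : Module.End K (Matrix n n K)) Y
      = ((N + N').choose i : K) • Y := by
    rw [← nsmul_one, LinearMap.smul_apply, Module.End.one_apply, Nat.cast_smul_eq_nsmul]
  rw [e3, map_smul, map_smul, smul_mul_assoc]
  rcases le_or_gt N (N + N' - i) with h | h
  · obtain ⟨j, hj⟩ := Nat.exists_eq_add_of_le h
    rw [hj, add_comm N j, pow_add, Module.End.mul_apply, h1, map_zero, map_zero, zero_mul,
      smul_zero]
  · have hi' : N' ≤ i := by omega
    obtain ⟨j, hj⟩ := Nat.exists_eq_add_of_le hi'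
    rw [LinearMap.pow_mulRight, LinearMap.mulRight_apply, mul_assoc, hj, add_comm N' j, pow_add,
      mul_assoc (A ^ j), h2, mul_zero, mul_zero, smul_zero]

theorem key2 {A P Y : Matrix n n K} {N N' : ℕ} (h1 : ((adm A) ^ N) Y = 0) (h2 : P * A ^ N' = 0) :
    P * (Y * A ^ (N + N')) = 0 := by
  have hc : Commute (LinearMap.mulLeft K A) (-adm A) := by
    refine Commute.neg_right (Commute.sub_right (Commute.refl _) ?_)
    exact LinearMap.commute_mulLeft_right A A
  have e : LinearMap.mulRight K A = LinearMap.mulLeft K A + (-adm A) := by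
    rw [adm]; abel
  have e2 : Y * A ^ (N + N') = ((LinearMap.mulRight K A) ^ (N + N')) Y := by
    rw [LinearMap.pow_mulRight]
    rfl
  rw [e2, e, hc.add_pow, LinearMap.sum_apply, Finset.mul_sum]
  refine Finset.sum_eq_zero fun i hi => ?_
  rw [Module.End.mul_apply, Module.End.mul_apply]
  have e3 : (((N + N').choose i : ℕ) : Module.End K (Matrix n n K)) Y
      = ((N + N').choose i : K) • Y := by
    rw [← nsmul_one, LinearMap.smul_apply, Module.End.one_apply, Nat.cast_smul_eq_nsmul]
  rw [e3, map_smul, map_smul, mul_smul_comm]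
  rcases le_or_gt N (N + N' - i) with h | h
  · obtain ⟨j, hj⟩ := Nat.exists_eq_add_of_le h
    have h3 : ((-adm A) ^ (N + j)) Y = 0 := by
      rw [neg_pow (adm A) (N + j), add_comm N j, pow_add (adm A), Module.End.mul_apply,
        Module.End.mul_apply, h1, map_zero, map_zero]
    rw [hj, h3, map_zero, mul_zero, smul_zero]
  · have hi' : N' ≤ i := by omega
    obtain ⟨j, hj⟩ := Nat.exists_eq_add_of_le hi'
    rw [LinearMap.pow_mulLeft, LinearMap.mulLeft_apply, ← mul_assoc, hj, pow_add,
      ← mul_assoc P, h2, zero_mul, zero_mul, smul_zero]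

/-- elements of the Fitting null part of `ad A` commute with the Fitting projection -/
theorem Fit.commute {A P Y : Matrix n n K} (h : Fit A P) {N : ℕ} (h1 : ((adm A) ^ N) Y = 0) :
    Commute Y P := by
  obtain ⟨N', hN'⟩ := h.nil
  have hN'' : P * A ^ N' = 0 := by rw [← (h.comm.pow_left N').eq, hN']
  have k1 := key1 h1 hN'
  have k2 := key2 h1 hN''
  obtain ⟨U, hU⟩ := h.unit.pow (N + N')
  have hcP : Commute (A ^ (N + N')) (1 - P) :=
    ((Commute.one_right A).sub_right h.comm).pow_left _
  have hcAP : Commute (A + P) (1 - P) :=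
    ((Commute.one_right A).sub_right h.comm).add_left
      ((Commute.one_right P).sub_right (Commute.refl P))
  have e0 := pow_mul_compl h.idem h.comm (N + N')
  have e1 : (1 - P) * (Y * P) = 0 := by
    have : (A + P) ^ (N + N') * ((1 - P) * (Y * P)) = 0 := by
      rw [← mul_assoc, e0, hcP.eq, mul_assoc, ← mul_assoc (A ^ (N + N')), k1, mul_zero]
    rw [← hU] at this
    have h2 := congrArg (fun Z => (↑U⁻¹ : Matrix n n K) * Z) this
    simpa [← mul_assoc] using h2
  have e2 : (P * Y) * (1 - P) = 0 := by
    have : (P * Y) * (1 - P) * (A + P) ^ (N + N') = 0 := by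
      rw [mul_assoc, ← (hcAP.pow_left (N + N')).eq, e0, ← mul_assoc, mul_assoc P, k2, zero_mul]
    rw [← hU] at this
    have h2 := congrArg (fun Z => Z * (↑U⁻¹ : Matrix n n K)) this
    simpa [mul_assoc] using h2
  rw [sub_mul, one_mul, sub_eq_zero] at e1
  rw [mul_sub, mul_one, sub_eq_zero] at e2
  rw [commute_iff_eq, e1, e2, mul_assoc]

end H300R3.LTS
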