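import Mathlib

/-!
# Spans of nilpotent endomorphisms in Lie triple systems

If a Lie triple system of endomorphisms of a finite dimensional vector space of characteristic
zero is spanned by a set of endomorphisms all of whose pairwise sums are nilpotent, then all its
elements are nilpotent.
-/

set_option autoImplicit false
set_option linter.unusedSectionVars false

open Module LieModule

namespace H300R3.LTS

universe u v w

section Span

variable {K : Type u} {L : Type v} [Field K] [CharZero K] [LieRing L] [LieAlgebra K L]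

/-- The elements killed by the derived algebra. -/
def killed (K : Type u) (L : Type v) [Field K] [LieRing L] [LieAlgebra K L]
    (M : Type w) [AddCommGroup M] [Module K M] [LieRingModule L M]
    [LieModule K L M] : LieSubmodule K L M where
  carrier := {v | ∀ y ∈ LieAlgebra.derivedSeries K L 1, ⁅y, v⁆ = 0}
  add_mem' := by
    intro a b ha hb y hy
    rw [lie_add, ha y hy, hb y hy, add_zero]
  zero_mem' := by
    intro y _
    rw [lie_zero]
  smul_mem' := by
    intro c a ha y hy
    rw [lie_smul, ha y hy, smul_zero]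
  lie_mem := by
    intro x m hm y hy
    have h1 : ⁅y, ⁅x, m⁆⁆ = ⁅⁅y, x⁆, m⁆ + ⁅x, ⁅y, m⁆⁆ := leibniz_lie y x m
    rw [h1, hm y hy, lie_zero, add_zero]
    exact hm _ (lie_mem_left K L _ y x hy)

theorem mem_killed {M : Type w} [AddCommGroup M] [Module K M] [LieRingModule L M]
    [LieModule K L M] (v : M) :
    v ∈ killed K L M ↔ ∀ y ∈ LieAlgebra.derivedSeries K L 1, ⁅y, v⁆ = 0 := Iff.rfl

theorem lie_mem_derived (x y : L) : ⁅x, y⁆ ∈ LieAlgebra.derivedSeries K L 1 := by
  rw [LieAlgebra.derivedSeries_def, LieAlgebra.derivedSeriesOfIdeal_succ,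
    LieAlgebra.derivedSeriesOfIdeal_zero]
  exact LieSubmodule.lie_mem_lie (LieSubmodule.mem_top x) (LieSubmodule.mem_top y)

theorem quot_pow {M : Type w} [AddCommGroup M] [Module K M] [LieRingModule L M]
    [LieModule K L M] (N : LieSubmodule K L M) (x : L) (k : ℕ) (m : M) :
    ((toEnd K L (M ⧸ N) x) ^ k) (LieSubmodule.Quotient.mk m : M ⧸ N)
      = LieSubmodule.Quotient.mk (((toEnd K L M x) ^ k) m) := by
  induction k generalizing m with
  | zero => simp
  | succ k ih =>
    rw [pow_succ, pow_succ, Module.End.mul_apply, Module.End.mul_apply, ← ih]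
    rfl

theorem span_nil (S : Set L) : ∀ (d : ℕ) (M : Type w) [AddCommGroup M] [Module K M]
    [LieRingModule L M] [LieModule K L M] [FiniteDimensional K M], finrank K M = d →
    (∀ y ∈ LieAlgebra.derivedSeries K L 1, _root_.IsNilpotent (toEnd K L M y)) →
    (∀ u ∈ S, _root_.IsNilpotent (toEnd K L M u)) →
    ∀ x ∈ Submodule.span K S, _root_.IsNilpotent (toEnd K L M x) := by
  intro d
  induction d using Nat.strong_induction_on with
  | _ d ih =>
  intro M _ _ _ _ _ hd hD hS x hx
  rcases subsingleton_or_nontrivial M with hM | hM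
  · exact ⟨1, by ext m; exact Subsingleton.elim _ _⟩
  -- the submodule killed by the derived algebra
  have hnilD : LieModule.IsNilpotent (LieAlgebra.derivedSeries K L 1) M := by
    rw [LieModule.isNilpotent_iff_forall' (R := K)]
    rintro ⟨y, hy⟩
    exact hD y hy
  have hnt : Nontrivial (maxTrivSubmodule K (LieAlgebra.derivedSeries K L 1) M) :=
    LieModule.nontrivial_max_triv_of_isNilpotent K _ M
  obtain ⟨⟨v, hv⟩, hv0⟩ := exists_ne (0 : maxTrivSubmodule K (LieAlgebra.derivedSeries K L 1) M)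
  have hvk : v ∈ killed K L M := by
    intro y hy
    rw [LieModule.mem_maxTrivSubmodule] at hv
    exact hv ⟨y, hy⟩
  have hv0' : v ≠ 0 := fun h => hv0 (Subtype.ext h)
  set N : LieSubmodule K L M := killed K L M with hN
  have hNpos : 0 < finrank K N.toSubmodule := by
    rw [Module.finrank_pos_iff_exists_ne_zero]
    exact ⟨⟨v, hvk⟩, fun h => hv0' (congrArg Subtype.val h)⟩
  have hlt : finrank K (M ⧸ N) < d := by
    have h1 := Submodule.finrank_quotient_add_finrank N.toSubmodule
    have h2 : finrank K (M ⧸ N) = finrank K (M ⧸ N.toSubmodule) := rfl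
    rw [h2]
    omega
  -- the quotient
  have hq : ∀ y : L, _root_.IsNilpotent (toEnd K L M y) →
      _root_.IsNilpotent (toEnd K L (M ⧸ N) y) := by
    rintro y ⟨k, hk⟩
    refine ⟨k, ?_⟩
    ext m
    obtain ⟨m, rfl⟩ := LieSubmodule.Quotient.surjective_mk' N m
    change ((toEnd K L (M ⧸ N) y) ^ k) (LieSubmodule.Quotient.mk m : M ⧸ N) = 0
    rw [quot_pow, hk]
    rfl
  have hquot : _root_.IsNilpotent (toEnd K L (M ⧸ N) x) := by
    have : FiniteDimensional K (M ⧸ N) := by
      change FiniteDimensional K (M ⧸ N.toSubmodule)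
      infer_instance
    exact ih _ hlt (M ⧸ N) rfl (fun y hy => hq y (hD y hy)) (fun u hu => hq u (hS u hu)) x hx
  -- on the submodule everything commutes
  have hcomm : ∀ a b : L, Commute (toEnd K L N a) (toEnd K L N b) := by
    intro a b
    rw [commute_iff_eq]
    ext m
    have h1 : ⁅a, ⁅b, (m : M)⁆⁆ = ⁅⁅a, b⁆, (m : M)⁆ + ⁅b, ⁅a, (m : M)⁆⁆ := leibniz_lie a b _
    have h2 : ⁅⁅a, b⁆, (m : M)⁆ = 0 := m.2 _ (lie_mem_derived a b)
    rw [h2, zero_add] at h1
    simpa using h1
  have hsub : _root_.IsNilpotent (toEnd K L N x) := by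
    clear hquot
    induction hx using Submodule.span_induction with
    | mem u hu =>
      obtain ⟨k, hk⟩ := hS u hu
      refine ⟨k, ?_⟩
      ext m
      rw [LieSubmodule.coe_toEnd_pow, hk]
      simp
    | zero => rw [map_zero]; exact IsNilpotent.zero
    | add a b ha hb h1 h2 =>
      rw [map_add]
      exact (hcomm a b).isNilpotent_add h1 h2
    | smul c a ha h1 =>
      rw [map_smul]
      obtain ⟨k, hk⟩ := h1
      exact ⟨k, by rw [smul_pow, hk, smul_zero]⟩
  -- combine
  obtain ⟨k, hk⟩ := hquot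
  obtain ⟨l, hl⟩ := hsub
  refine ⟨l + k, ?_⟩
  ext m
  have h1 : ((toEnd K L M x) ^ k) m ∈ N := by
    rw [← LieSubmodule.Quotient.mk_eq_zero]
    have h3 := quot_pow N x k m
    rw [hk] at h3
    exact h3.symm
  have h2 : ((toEnd K L M x) ^ l) (((toEnd K L M x) ^ k) m) = 0 := by
    have := LieSubmodule.coe_toEnd_pow K L M N x ⟨_, h1⟩ l
    rw [hl] at this
    simpa using this.symm
  rw [pow_add, Module.End.mul_apply, h2]
  rfl

end Span

section LTS

attribute [local instance 100] LieRing.ofAssociativeRing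

variable {K : Type u} {W : Type v} [Field K] [CharZero K] [AddCommGroup W] [Module K W]
  [FiniteDimensional K W]

/-- The span of the brackets of elements of `U`. -/
def brk (U : Submodule K (Module.End K W)) : Submodule K (Module.End K W) :=
  Submodule.span K {f | ∃ x ∈ U, ∃ y ∈ U, f = ⁅x, y⁆}

/-- closed under triple brackets -/
def IsLTS (U : Submodule K (Module.End K W)) : Prop :=
  ∀ x ∈ U, ∀ y ∈ U, ∀ z ∈ U, ⁅⁅x, y⁆, z⁆ ∈ U

theorem lie_brk_mem {U : Submodule K (Module.End K W)} (hU : IsLTS U) {h z : Module.End K W}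
    (hh : h ∈ brk U) (hz : z ∈ U) : ⁅h, z⁆ ∈ U := by
  induction hh using Submodule.span_induction with
  | mem f hf =>
    obtain ⟨x, hx, y, hy, rfl⟩ := hf
    exact hU x hx y hy z hz
  | zero => rw [zero_lie]; exact U.zero_mem
  | add a b _ _ h1 h2 => rw [add_lie]; exact U.add_mem h1 h2
  | smul c a _ h1 => rw [smul_lie]; exact U.smul_mem c h1

theorem lie_mem_brk {U : Submodule K (Module.End K W)} {x y : Module.End K W}
    (hx : x ∈ U) (hy : y ∈ U) : ⁅x, y⁆ ∈ brk U :=
  Submodule.subset_span ⟨x, hx, y, hy, rfl⟩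

theorem brk_lie_brk {U : Submodule K (Module.End K W)} (hU : IsLTS U) {h h' : Module.End K W}
    (hh : h ∈ brk U) (hh' : h' ∈ brk U) : ⁅h, h'⁆ ∈ brk U := by
  induction hh' using Submodule.span_induction with
  | mem f hf =>
    obtain ⟨x, hx, y, hy, rfl⟩ := hf
    rw [leibniz_lie]
    exact (brk U).add_mem (lie_mem_brk (lie_brk_mem hU hh hx) hy)
      (lie_mem_brk hx (lie_brk_mem hU hh hy))
  | zero => rw [lie_zero]; exact (brk U).zero_mem
  | add a b _ _ h1 h2 => rw [lie_add]; exact (brk U).add_mem h1 h2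
  | smul c a _ h1 => rw [lie_smul]; exact (brk U).smul_mem c h1

/-- the element `(x + h, -x + h)` acting on `W × W` -/
noncomputable def dbl (x h : Module.End K W) : Module.End K (W × W) :=
  LinearMap.prodMap (x + h) (-x + h)

theorem dbl_lie (x h x' h' : Module.End K W) :
    ⁅dbl x h, dbl x' h'⁆ = dbl (⁅h, x'⁆ + ⁅x, h'⁆) (⁅x, x'⁆ + ⁅h, h'⁆) := by
  have e : ∀ f g f' g' : Module.End K W, LinearMap.prodMap f g * LinearMap.prodMap f' g'
      = (LinearMap.prodMap (f * f') (g * g') : Module.End K (W × W)) := by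
    intro f g f' g'
    rfl
  rw [dbl, dbl, dbl, Ring.lie_def, e, e]
  have e2 : ∀ f g f' g' : Module.End K W, LinearMap.prodMap f g - LinearMap.prodMap f' g'
      = (LinearMap.prodMap (f - f') (g - g') : Module.End K (W × W)) := by
    intro f g f' g'
    ext <;> simp
  rw [e2]
  congr 1
  · simp only [Ring.lie_def]
    noncomm_ring
  · simp only [Ring.lie_def]
    noncomm_ring

/-- The doubled Lie algebra. -/
noncomputable def dblAlg (U : Submodule K (Module.End K W)) (hU : IsLTS U) :
    LieSubalgebra K (Module.End K (W × W)) where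
  carrier := {f | ∃ x ∈ U, ∃ h ∈ brk U, f = dbl x h}
  add_mem' := by
    rintro _ _ ⟨x, hx, h, hh, rfl⟩ ⟨x', hx', h', hh', rfl⟩
    refine ⟨x + x', U.add_mem hx hx', h + h', (brk U).add_mem hh hh', ?_⟩
    ext <;> simp [dbl] <;> abel
  zero_mem' := ⟨0, U.zero_mem, 0, (brk U).zero_mem, by ext <;> simp [dbl]⟩
  smul_mem' := by
    rintro c _ ⟨x, hx, h, hh, rfl⟩
    refine ⟨c • x, U.smul_mem c hx, c • h, (brk U).smul_mem c hh, ?_⟩
    ext <;> simp [dbl]
  lie_mem' := by
    rintro _ _ ⟨x, hx, h, hh, rfl⟩ ⟨x', hx', h', hh', rfl⟩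
    refine ⟨_, ?_, _, ?_, dbl_lie x h x' h'⟩
    · refine U.add_mem (lie_brk_mem hU hh hx') ?_
      rw [← lie_skew]
      exact U.neg_mem (lie_brk_mem hU hh' hx)
    · exact (brk U).add_mem (lie_mem_brk hx hx') (brk_lie_brk hU hh hh')

/-- the trace form vanishes on the triple system -/
theorem trace_zero {U : Submodule K (Module.End K W)} {s : Set (Module.End K W)}
    (hs : U = Submodule.span K s) (hnil : ∀ x ∈ s, ∀ y ∈ s, _root_.IsNilpotent (x + y)) :
    ∀ x ∈ U, ∀ y ∈ U, LinearMap.trace K W (x * y) = 0 := by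
  have hone : ∀ x ∈ s, _root_.IsNilpotent x := by
    intro x hx
    obtain ⟨k, hk⟩ := hnil x hx x hx
    refine ⟨k, ?_⟩
    rw [← two_smul K x, smul_pow] at hk
    exact (smul_eq_zero.1 hk).resolve_left (pow_ne_zero _ two_ne_zero)
  have hsq : ∀ x : Module.End K W, _root_.IsNilpotent x → LinearMap.trace K W (x * x) = 0 := by
    intro x hx
    have : _root_.IsNilpotent (x * x) := (Commute.refl x).isNilpotent_mul_right hx
    exact (LinearMap.isNilpotent_trace_of_isNilpotent this).eq_zero
  have hgen : ∀ x ∈ s, ∀ y ∈ s, LinearMap.trace K W (x * y) = 0 := by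
    intro x hx y hy
    have h1 := hsq _ (hnil x hx y hy)
    rw [mul_add, add_mul, add_mul, map_add, map_add, map_add, hsq x (hone x hx),
      hsq y (hone y hy), LinearMap.trace_mul_comm K y x, zero_add, add_zero] at h1
    have h2 : (2 : K) * LinearMap.trace K W (x * y) = 0 := by
      rw [two_mul]
      exact h1
    exact (mul_eq_zero.1 h2).resolve_left two_ne_zero
  subst hs
  intro x hx
  induction hx using Submodule.span_induction with
  | mem x hx =>
    intro y hy
    induction hy using Submodule.span_induction with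
    | mem y hy => exact hgen x hx y hy
    | zero => rw [mul_zero, map_zero]
    | add a b _ _ h1 h2 => rw [mul_add, map_add, h1, h2, add_zero]
    | smul c a _ h1 => rw [mul_smul_comm, map_smul, h1, smul_zero]
  | zero => intro y _; rw [zero_mul, map_zero]
  | add a b _ _ h1 h2 => intro y hy; rw [add_mul, map_add, h1 y hy, h2 y hy, add_zero]
  | smul c a _ h1 => intro y hy; rw [smul_mul_assoc, map_smul, h1 y hy, smul_zero]

theorem trace_brk_zero {U : Submodule K (Module.End K W)} (hU : IsLTS U)
    (h0 : ∀ x ∈ U, ∀ y ∈ U, LinearMap.trace K W (x * y) = 0) :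
    ∀ x ∈ brk U, ∀ y ∈ brk U, LinearMap.trace K W (x * y) = 0 := by
  intro x hx y hy
  induction hx using Submodule.span_induction with
  | mem f hf =>
    obtain ⟨a, ha, b, hb, rfl⟩ := hf
    have h1 : ⁅b, y⁆ ∈ U := by
      rw [← lie_skew]
      exact U.neg_mem (lie_brk_mem hU hy hb)
    have h2 := h0 a ha _ h1
    rw [Ring.lie_def, mul_sub, map_sub, sub_eq_zero] at h2
    rw [Ring.lie_def, sub_mul, map_sub, sub_eq_zero, mul_assoc, h2,
      LinearMap.trace_mul_comm K (b * a) y, LinearMap.trace_mul_comm K a (y * b), mul_assoc]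
  | zero => rw [zero_mul, map_zero]
  | add a b _ _ h1 h2 => rw [add_mul, map_add, h1, h2, add_zero]
  | smul c a _ h1 => rw [smul_mul_assoc, map_smul, h1, smul_zero]

/-- A Lie triple system of endomorphisms spanned by a set of endomorphisms whose pairwise sums are
nilpotent consists of nilpotent endomorphisms. -/
theorem lts_nil {U : Submodule K (Module.End K W)} (hU : IsLTS U) {s : Set (Module.End K W)}
    (hs : U = Submodule.span K s) (hnil : ∀ x ∈ s, ∀ y ∈ s, _root_.IsNilpotent (x + y)) :
    ∀ x ∈ U, _root_.IsNilpotent x := by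
  have hone : ∀ x ∈ s, _root_.IsNilpotent x := by
    intro x hx
    obtain ⟨k, hk⟩ := hnil x hx x hx
    refine ⟨k, ?_⟩
    rw [← two_smul K x, smul_pow] at hk
    exact (smul_eq_zero.1 hk).resolve_left (pow_ne_zero _ two_ne_zero)
  have h0 := trace_zero hs hnil
  have h1 := trace_brk_zero hU h0
  set L := dblAlg U hU with hL
  have htr : LieModule.traceForm K L (W × W) = 0 := by
    ext ⟨f, hf⟩ ⟨g, hg⟩
    obtain ⟨x, hx, h, hh, rfl⟩ := hf
    obtain ⟨x', hx', h', hh', rfl⟩ := hg
    rw [LieModule.traceForm_apply_apply]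
    have e : (toEnd K L (W × W)) ⟨dbl x h, ⟨x, hx, h, hh, rfl⟩⟩ ∘ₗ
        (toEnd K L (W × W)) ⟨dbl x' h', ⟨x', hx', h', hh', rfl⟩⟩
        = LinearMap.prodMap ((x + h) * (x' + h')) ((-x + h) * (-x' + h')) := rfl
    rw [e, LinearMap.trace_prodMap']
    simp only [mul_add, add_mul, neg_mul, mul_neg, neg_neg, map_add, map_neg]
    rw [h0 x hx x' hx', h1 h hh h' hh']
    simp
    ring
  have hD := LieModule.isNilpotent_derivedSeries_of_traceForm_eq_zero htr
  rw [LieModule.isNilpotent_iff_forall' (R := K)] at hD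
  have hmem : ∀ x ∈ U, dbl x 0 ∈ L := fun x hx => ⟨x, hx, 0, (brk U).zero_mem, rfl⟩
  -- nilpotency of `dbl x 0`
  have hpow : ∀ (x : Module.End K W) (k : ℕ),
      (dbl x 0) ^ k = (LinearMap.prodMap (x ^ k) ((-x) ^ k) : Module.End K (W × W)) := by
    intro x k
    induction k with
    | zero => ext <;> simp
    | succ k ih =>
      rw [pow_succ, ih, pow_succ, pow_succ, dbl, add_zero, add_zero]
      rfl
  have key := span_nil (K := K) (L := L) {f : L | ∃ u, ∃ hu : u ∈ s, f = ⟨dbl u 0, hmem u (by
    rw [hs]; exact Submodule.subset_span hu)⟩} (finrank K (W × W)) (W × W) rfl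
    (fun y hy => hD ⟨y, hy⟩) (by
      rintro _ ⟨u, hu, rfl⟩
      obtain ⟨k, hk⟩ := hone u hu
      refine ⟨k, ?_⟩
      change (dbl u 0) ^ k = 0
      rw [hpow, neg_pow, hk, mul_zero]
      ext <;> simp)
  intro x hx
  have hx' : (⟨dbl x 0, hmem x hx⟩ : L) ∈ Submodule.span K {f : L | ∃ u, ∃ hu : u ∈ s,
      f = ⟨dbl u 0, hmem u (by rw [hs]; exact Submodule.subset_span hu)⟩} := by
    have hx2 := hx
    rw [hs] at hx2
    have gen : ∀ x (hx : x ∈ Submodule.span K s), ∀ hx3 : x ∈ U,
        (⟨dbl x 0, hmem x hx3⟩ : L) ∈ Submodule.span K {f : L | ∃ u, ∃ hu : u ∈ s,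
          f = ⟨dbl u 0, hmem u (by rw [hs]; exact Submodule.subset_span hu)⟩} := by
      intro x hx
      induction hx using Submodule.span_induction with
      | mem u hu => intro h3; exact Submodule.subset_span ⟨u, hu, rfl⟩
      | zero =>
        intro h3
        have : (⟨dbl 0 0, hmem 0 h3⟩ : L) = 0 := by
          apply Subtype.ext
          ext <;> simp [dbl]
        rw [this]
        exact Submodule.zero_mem _
      | add a b ha hb h1 h2 =>
        intro h3
        have ha' : a ∈ U := by rw [hs]; exact ha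
        have hb' : b ∈ U := by rw [hs]; exact hb
        have : (⟨dbl (a + b) 0, hmem _ h3⟩ : L) = ⟨dbl a 0, hmem a ha'⟩ + ⟨dbl b 0, hmem b hb'⟩ := by
          apply Subtype.ext
          ext <;> simp [dbl] <;> abel
        rw [this]
        exact Submodule.add_mem _ (h1 ha') (h2 hb')
      | smul c a ha h1 =>
        intro h3
        have ha' : a ∈ U := by rw [hs]; exact ha
        have : (⟨dbl (c • a) 0, hmem _ h3⟩ : L) = c • ⟨dbl a 0, hmem a ha'⟩ := by
          apply Subtype.ext
          ext <;> simp [dbl]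
        rw [this]
        exact Submodule.smul_mem _ c (h1 ha')
    exact gen x hx2 hx
  obtain ⟨k, hk⟩ := key _ hx'
  refine ⟨k, ?_⟩
  have hk' : (dbl x 0) ^ k = 0 := hk
  rw [hpow] at hk'
  ext w
  have := congrArg (fun f : Module.End K (W × W) => (f (w, 0)).1) hk'
  simpa using this

end LTS

end H300R3.LTS
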