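import Mathlib
import Pool.Agent.H300R3.LTS.Fit

/-!
# Reduction to the Fitting null part, by conjugation with exponentials
-/

set_option autoImplicit false
set_option linter.unusedSectionVars false

open Module NormedSpace Filter Topology

namespace H300R3.LTS

section Exp

variable {K 𝔸 : Type*} [RCLike K] [NormedRing 𝔸] [NormedAlgebra K 𝔸] [FiniteDimensional K 𝔸]

theorem exp_left (Y Z : 𝔸) :
    (exp ((ContinuousLinearMap.mul K 𝔸) Y) : 𝔸 →L[K] 𝔸) Z = exp Y * Z := by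
  have hc : CompleteSpace 𝔸 := FiniteDimensional.complete K 𝔸
  have h1 := (exp_series_hasSum_exp' (𝕂 := K) Y).mul_right Z
  have h2 := (ContinuousLinearMap.apply K 𝔸 Z).hasSum
    (exp_series_hasSum_exp' (𝕂 := K) ((ContinuousLinearMap.mul K 𝔸) Y))
  have hp : ∀ k : ℕ, (((ContinuousLinearMap.mul K 𝔸) Y) ^ k) Z = Y ^ k * Z := by
    intro k
    induction k with
    | zero => simp
    | succ k ih =>
      rw [pow_succ', mul_apply_eq_comp, ih, ContinuousLinearMap.mul_apply', pow_succ',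
        mul_assoc]
  have hf : (fun k : ℕ => (ContinuousLinearMap.apply K 𝔸 Z)
      (((k.factorial : K))⁻¹ • ((ContinuousLinearMap.mul K 𝔸) Y) ^ k))
      = fun k : ℕ => ((k.factorial : K))⁻¹ • Y ^ k * Z := by
    funext k
    rw [smul_mul_assoc, ← hp]
    rfl
  rw [hf] at h2
  exact h2.unique h1

theorem exp_right (Y Z : 𝔸) :
    (exp ((ContinuousLinearMap.mul K 𝔸).flip Y) : 𝔸 →L[K] 𝔸) Z = Z * exp Y := by
  have hc : CompleteSpace 𝔸 := FiniteDimensional.complete K 𝔸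
  have h1 := (exp_series_hasSum_exp' (𝕂 := K) Y).mul_left Z
  have h2 := (ContinuousLinearMap.apply K 𝔸 Z).hasSum
    (exp_series_hasSum_exp' (𝕂 := K) ((ContinuousLinearMap.mul K 𝔸).flip Y))
  have hp : ∀ k : ℕ, (((ContinuousLinearMap.mul K 𝔸).flip Y) ^ k) Z = Z * Y ^ k := by
    intro k
    induction k with
    | zero => simp
    | succ k ih =>
      rw [pow_succ', mul_apply_eq_comp, ih, ContinuousLinearMap.flip_apply,
        ContinuousLinearMap.mul_apply', pow_succ, mul_assoc]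
  have hf : (fun k : ℕ => (ContinuousLinearMap.apply K 𝔸 Z)
      (((k.factorial : K))⁻¹ • ((ContinuousLinearMap.mul K 𝔸).flip Y) ^ k))
      = fun k : ℕ => Z * ((k.factorial : K))⁻¹ • Y ^ k := by
    funext k
    rw [mul_smul_comm, ← hp]
    rfl
  rw [hf] at h2
  exact h2.unique h1

/-- conjugation by the exponential of an element normalising `V` preserves `V` -/
theorem exp_conj_mem (V : Submodule K 𝔸) {Y : 𝔸} (hY : ∀ Z ∈ V, Y * Z - Z * Y ∈ V) {h : 𝔸}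
    (hh : h ∈ V) : exp Y * h * exp (-Y) ∈ V := by
  have hc : CompleteSpace 𝔸 := FiniteDimensional.complete K 𝔸
  set L : 𝔸 →L[K] 𝔸 := (ContinuousLinearMap.mul K 𝔸) Y with hL
  set R : 𝔸 →L[K] 𝔸 := (ContinuousLinearMap.mul K 𝔸).flip (-Y) with hR
  letI : NormedAlgebra ℚ (𝔸 →L[K] 𝔸) := NormedAlgebra.restrictScalars ℚ K (𝔸 →L[K] 𝔸)
  have hcomm : Commute L R := by
    rw [commute_iff_eq]
    ext Z
    simp [hL, hR, mul_assoc]
  have e1 : exp (L + R) = exp L * exp R := exp_add_of_commute hcomm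
  have e2 : (exp (L + R)) h = exp Y * h * exp (-Y) := by
    rw [e1, mul_apply_eq_comp, hR, exp_right, hL, exp_left, mul_assoc]
  rw [← e2]
  have h2 := (ContinuousLinearMap.apply K 𝔸 h).hasSum (exp_series_hasSum_exp' (𝕂 := K) (L + R))
  have hmem : ∀ k : ℕ, ((L + R) ^ k) h ∈ V := by
    intro k
    induction k with
    | zero => simpa using hh
    | succ k ih =>
      rw [pow_succ', mul_apply_eq_comp]
      have := hY _ ih
      convert this using 1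
      simp [hL, hR, sub_eq_add_neg]
  have hclosed : IsClosed (V : Set 𝔸) := Submodule.closed_of_finiteDimensional V
  refine hclosed.mem_of_tendsto h2 (Filter.Eventually.of_forall fun s => ?_)
  refine V.sum_mem fun k _ => ?_
  rw [ContinuousLinearMap.apply_apply, ContinuousLinearMap.smul_apply]
  exact V.smul_mem _ (hmem k)

/-- closed under `(X, Y, Z) ↦ [[X, Y], Z]` -/
def Triple (V : Submodule K 𝔸) : Prop :=
  ∀ X ∈ V, ∀ Y ∈ V, ∀ Z ∈ V, (X * Y - Y * X) * Z - Z * (X * Y - Y * X) ∈ V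

/-- the derivative of `q ↦ exp (ℓ q) (ι q) exp (- ℓ q)` -/
theorem deriv_conj {E : Type*} [NormedAddCommGroup E] [NormedSpace K E] (ℓ ι : E →L[K] 𝔸) (x0 : E)
    (hℓ0 : ℓ x0 = 0) : ∃ Φ' : E →L[K] 𝔸,
      (∀ q, Φ' q = ι q + (ℓ q * ι x0 - ι x0 * ℓ q)) ∧
      HasStrictFDerivAt (fun q : E => exp (ℓ q) * ι q * exp (-(ℓ q))) Φ' x0 := by
  have hc : CompleteSpace 𝔸 := FiniteDimensional.complete K 𝔸
  have d1 : HasStrictFDerivAt (fun q => exp (ℓ q)) ℓ x0 := by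
    have h1 : HasStrictFDerivAt (exp : 𝔸 → 𝔸) (1 : 𝔸 →L[K] 𝔸) (ℓ x0) := by
      rw [hℓ0]; exact hasStrictFDerivAt_exp_zero
    have h2 := h1.comp x0 ℓ.hasStrictFDerivAt
    have h3 : (1 : 𝔸 →L[K] 𝔸).comp ℓ = ℓ := by ext q; rfl
    rw [h3] at h2
    exact h2
  have d2 : HasStrictFDerivAt (fun q => exp (-(ℓ q))) (-ℓ) x0 := by
    have h1 : HasStrictFDerivAt (exp : 𝔸 → 𝔸) (1 : 𝔸 →L[K] 𝔸) ((-ℓ) x0) := by
      rw [neg_apply, hℓ0, neg_zero]; exact hasStrictFDerivAt_exp_zero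
    have h2 := h1.comp x0 (-ℓ).hasStrictFDerivAt
    have h3 : (1 : 𝔸 →L[K] 𝔸).comp (-ℓ) = -ℓ := by ext q; rfl
    rw [h3] at h2
    exact h2
  have d30 : HasStrictFDerivAt ((fun q => exp (ℓ q)) * (fun q => ι q))
      (exp (ℓ x0) • ι + MulOpposite.op (ι x0) • ℓ) x0 :=
    HasStrictFDerivAt.mul' d1 ι.hasStrictFDerivAt
  have d3 : HasStrictFDerivAt (((fun q => exp (ℓ q)) * (fun q => ι q)) * (fun q => exp (-(ℓ q))))
      ((exp (ℓ x0) * ι x0) • (-ℓ)
        + MulOpposite.op (exp (-(ℓ x0))) • (exp (ℓ x0) • ι + MulOpposite.op (ι x0) • ℓ)) x0 :=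
    HasStrictFDerivAt.mul' d30 d2
  refine ⟨_, fun q => ?_, d3⟩
  simp only [add_apply, smul_apply, hℓ0, exp_zero, neg_zero, neg_apply, smul_eq_mul, one_mul,
    MulOpposite.smul_eq_mul_unop, MulOpposite.unop_op, mul_one, mul_neg]
  abel

/-- abstract surjectivity argument -/
theorem near_aux {V W : Type*} [NormedAddCommGroup V] [NormedSpace K V] [FiniteDimensional K V]
    [NormedAddCommGroup W] [NormedSpace K W] [FiniteDimensional K W]
    (ℓ ι : (W × V) →L[K] 𝔸) (p : 𝔸 →L[K] V) (x0 : W × V) (hℓ0 : ℓ x0 = 0)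
    (hsurj : ∀ v : V, ∃ q : W × V, p (ι q + (ℓ q * ι x0 - ι x0 * ℓ q)) = v) :
    ∀ᶠ v : V in 𝓝 (p (ι x0)), ∃ q : W × V, p (exp (ℓ q) * ι q * exp (-(ℓ q))) = v := by
  have hc1 : CompleteSpace V := FiniteDimensional.complete K V
  have hc2 : CompleteSpace W := FiniteDimensional.complete K W
  obtain ⟨Φ', hΦ', hd⟩ := deriv_conj ℓ ι x0 hℓ0
  have d5 : HasStrictFDerivAt (fun q : W × V => p (exp (ℓ q) * ι q * exp (-(ℓ q))))
      (p.comp Φ') x0 := p.hasStrictFDerivAt.comp x0 hd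
  have hs : (LinearMap.range (p.comp Φ' : (W × V) →ₗ[K] V)) = ⊤ := by
    rw [LinearMap.range_eq_top]
    intro v
    obtain ⟨q, hq⟩ := hsurj v
    refine ⟨q, ?_⟩
    change p (Φ' q) = v
    rw [hΦ', hq]
  have hmap := d5.map_nhds_eq_of_surj hs
  have hval : p (exp (ℓ x0) * ι x0 * exp (-(ℓ x0))) = p (ι x0) := by
    rw [hℓ0, neg_zero, exp_zero, one_mul, mul_one]
  rw [hval] at hmap
  rw [← hmap, Filter.eventually_map]
  exact Filter.Eventually.of_forall fun q => ⟨q, rfl⟩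

/-- **Openness.** Elements of `V` near `A` are conjugate to elements of the Fitting null part. -/
theorem near (V : Submodule K 𝔸) (hV : Triple V) {A : 𝔸} (hA : A ∈ V)
    (ad : Module.End K 𝔸) (had : ∀ Z, ad Z = A * Z - Z * A) :
    ∀ᶠ v : V in 𝓝 (⟨A, hA⟩ : V), ∃ g g' h : 𝔸, g * g' = 1 ∧ g' * g = 1 ∧ h ∈ V ∧
      (∃ N : ℕ, (ad ^ N) h = 0) ∧ (v : 𝔸) = g * h * g' := by
  have hc : CompleteSpace 𝔸 := FiniteDimensional.complete K 𝔸
  -- the square of `ad A` on `V`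
  have had2 : ∀ x : 𝔸, (ad ^ 2) x = (x * A - A * x) * A - A * (x * A - A * x) := by
    intro x
    rw [pow_two, Module.End.mul_apply, had, had]
    noncomm_ring
  have hT : ∀ x ∈ V, (ad ^ 2) x ∈ V := by
    intro x hx
    rw [had2]
    exact hV x hx A hA A hA
  obtain ⟨T, hTa⟩ : ∃ T : Module.End K V, ∀ x : V, ((T x : V) : 𝔸) = (ad ^ 2) (x : 𝔸) :=
    ⟨(ad ^ 2).restrict hT, fun x => rfl⟩
  obtain ⟨N, hcompl, hN1⟩ := ((LinearMap.eventually_isCompl_ker_pow_range_pow T).and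
    (Filter.eventually_ge_atTop 1)).exists
  obtain ⟨k, hk⟩ : ∃ k, N = k + 1 := ⟨N - 1, by omega⟩
  obtain ⟨W, hW⟩ : ∃ W : Submodule K V, W = LinearMap.ker (T ^ N) := ⟨_, rfl⟩
  rw [← hW] at hcompl
  -- a projection on `V`
  obtain ⟨p0, hp0⟩ := LinearMap.exists_leftInverse_of_injective V.subtype V.ker_subtype
  obtain ⟨p, hpa⟩ : ∃ p : 𝔸 →L[K] V, ∀ v : V, p (v : 𝔸) = v :=
    ⟨LinearMap.toContinuousLinearMap p0, fun v => LinearMap.congr_fun hp0 v⟩
  obtain ⟨ℓ, hℓa⟩ : ∃ ℓ : (W × V) →L[K] 𝔸, ∀ q, ℓ q = (q.2 : 𝔸) * A - A * (q.2 : 𝔸) := by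
    refine ⟨LinearMap.toContinuousLinearMap ((-ad) ∘ₗ V.subtype ∘ₗ LinearMap.snd K W V),
      fun q => ?_⟩
    have : (LinearMap.toContinuousLinearMap ((-ad) ∘ₗ V.subtype ∘ₗ LinearMap.snd K W V)) q
      = -(ad (q.2 : 𝔸)) := rfl
    rw [this, had, neg_sub]
  obtain ⟨ι, hιa⟩ : ∃ ι : (W × V) →L[K] 𝔸, ∀ q, ι q = ((q.1 : V) : 𝔸) :=
    ⟨LinearMap.toContinuousLinearMap (V.subtype ∘ₗ W.subtype ∘ₗ LinearMap.fst K W V),
      fun q => rfl⟩
  have hAW : (⟨A, hA⟩ : V) ∈ W := by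
    rw [hW, LinearMap.mem_ker, hk, pow_succ, Module.End.mul_apply]
    have : T ⟨A, hA⟩ = 0 := by
      apply Subtype.ext
      rw [hTa, had2]
      simp
    rw [this, map_zero]
  obtain ⟨x0, hx1, hx2⟩ : ∃ x0 : W × V, x0.1 = ⟨⟨A, hA⟩, hAW⟩ ∧ x0.2 = 0 :=
    ⟨(⟨⟨A, hA⟩, hAW⟩, 0), rfl, rfl⟩
  have hℓ0 : ℓ x0 = 0 := by rw [hℓa, hx2]; simp
  have hι0 : ι x0 = A := by rw [hιa, hx1]
  have key := near_aux ℓ ι p x0 hℓ0 (by
    intro v
    have hv : v ∈ W ⊔ LinearMap.range (T ^ N) := by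
      rw [hcompl.sup_eq_top]; exact Submodule.mem_top
    obtain ⟨w, hw, r, ⟨u, rfl⟩, rfl⟩ := Submodule.mem_sup.1 hv
    refine ⟨(⟨w, hw⟩, (T ^ k) u), ?_⟩
    have hTu : (T ^ N) u = T ((T ^ k) u) := by rw [hk, pow_succ', Module.End.mul_apply]
    rw [hTu, hι0, hιa, hℓa]
    generalize (T ^ k) u = u'
    have e : (w : 𝔸) + (((u' : 𝔸) * A - A * (u' : 𝔸)) * A - A * ((u' : 𝔸) * A - A * (u' : 𝔸)))
        = ((w + T u' : V) : 𝔸) := by
      rw [Submodule.coe_add, hTa, had2]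
    change p ((w : 𝔸) + (((u' : 𝔸) * A - A * (u' : 𝔸)) * A
      - A * ((u' : 𝔸) * A - A * (u' : 𝔸)))) = _
    rw [e, hpa])
  have hval : p (ι x0) = ⟨A, hA⟩ := by
    rw [hι0]
    exact hpa ⟨A, hA⟩
  rw [hval] at key
  have hu1 : ∀ Y : 𝔸, exp Y * exp (-Y) = 1 := by
    intro Y
    let _ : NormedAlgebra ℚ 𝔸 := NormedAlgebra.restrictScalars ℚ K 𝔸
    rw [← exp_add_of_commute (Commute.neg_right (Commute.refl Y)), add_neg_cancel, exp_zero]
  have hpow : ∀ (k : ℕ) (x : V), (((T ^ k) x : V) : 𝔸) = (ad ^ (2 * k)) (x : 𝔸) := by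
    intro k
    induction k with
    | zero => intro x; rw [pow_zero, mul_zero, pow_zero, Module.End.one_apply,
        Module.End.one_apply]
    | succ k ih =>
      intro x
      rw [pow_succ, Module.End.mul_apply, ih, mul_add, mul_one, pow_add, Module.End.mul_apply,
        hTa]
  filter_upwards [key] with v hv
  obtain ⟨⟨⟨w, hw⟩, u⟩, hq⟩ := hv
  rw [hιa, hℓa] at hq
  refine ⟨exp ((u : 𝔸) * A - A * (u : 𝔸)), exp (-((u : 𝔸) * A - A * (u : 𝔸))), (w : 𝔸), hu1 _, ?_,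
    w.2, ⟨2 * N, ?_⟩, ?_⟩
  · have := hu1 (-((u : 𝔸) * A - A * (u : 𝔸)))
    rwa [neg_neg] at this
  · have h1 : (T ^ N) w = 0 := by
      rw [hW] at hw
      exact hw
    rw [← hpow, h1, Submodule.coe_zero]
  · have hmem : exp ((u : 𝔸) * A - A * (u : 𝔸)) * (w : 𝔸) * exp (-((u : 𝔸) * A - A * (u : 𝔸)))
        ∈ V :=
      exp_conj_mem V (fun Z hZ => hV _ u.2 A hA Z hZ) w.2
    rw [← hq]
    exact congrArg Subtype.val (hpa ⟨_, hmem⟩)

end Exp

section Matrix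

variable {K : Type*} [RCLike K] {n : Type*} [Fintype n] [DecidableEq n]

attribute [local instance] Matrix.linftyOpNormedRing Matrix.linftyOpNormedAlgebra

/-- **Reduction.** In a Lie triple system of matrices the smallest multiplicity of the eigenvalue
zero is attained on the Fitting null part of `ad A`. -/
theorem reduction (V : Submodule K (Matrix n n K))
    (hV : ∀ X ∈ V, ∀ Y ∈ V, ∀ Z ∈ V, (X * Y - Y * X) * Z - Z * (X * Y - Y * X) ∈ V)
    {A : Matrix n n K} (hA : A ∈ V) (z : ℕ)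
    (hW : ∀ h ∈ V, (∃ N : ℕ, ((adm A) ^ N) h = 0) → z ≤ zm h) :
    ∀ C ∈ V, z ≤ zm C := by
  have hnear := near V hV hA (adm A) (fun Z => adm_apply A Z)
  have h1 : ∀ᶠ v : V in 𝓝 (⟨A, hA⟩ : V), z ≤ zm (v : Matrix n n K) := by
    filter_upwards [hnear] with v hv
    obtain ⟨g, g', h, hu1, hu2, hh, hN, hv⟩ := hv
    rw [hv]
    have := zm_conj ⟨g, g', hu1, hu2⟩ h
    rw [show g * h * g' = ((⟨g, g', hu1, hu2⟩ : (Matrix n n K)ˣ) :
      Matrix n n K) * h * (↑(⟨g, g', hu1, hu2⟩ : (Matrix n n K)ˣ)⁻¹ : Matrix n n K)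
      from rfl, this]
    exact hW h hh hN
  intro C hC
  -- along the line `A + s C`
  have hcont : Filter.Tendsto (fun s : K => (⟨A, hA⟩ : V) + s • ⟨C, hC⟩) (𝓝 0)
      (𝓝 (⟨A, hA⟩ : V)) := by
    have : Continuous (fun s : K => (⟨A, hA⟩ : V) + s • ⟨C, hC⟩) := by fun_prop
    have h2 := this.tendsto 0
    rwa [zero_smul, add_zero] at h2
  have h2 : {s : K | z ≤ zm (A + s • C)} ∈ 𝓝 (0 : K) := hcont.eventually h1
  have hinf : {s : K | z ≤ zm (A + s • C)}.Infinite := infinite_of_mem_nhds 0 h2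
  obtain ⟨T, hT, hTc⟩ := hinf.exists_subset_card_eq (Fintype.card n + 1)
  have h3 : ∀ s : K, z ≤ zm (A + s • C) := zm_pencil A C z T (by omega) (fun t ht => hT ht)
  have h4 : ∀ r : K, r ≠ 0 → z ≤ zm (C + r • A) := by
    intro r hr
    have e : C + r • A = r • (A + r⁻¹ • C) := by
      rw [smul_add, smul_smul, mul_inv_cancel₀ hr, one_smul, add_comm]
    rw [e, zm_smul hr]
    exact h3 _
  have hinf2 : ({0}ᶜ : Set K).Infinite := (Set.finite_singleton (0 : K)).infinite_compl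
  obtain ⟨T2, hT2, hTc2⟩ := hinf2.exists_subset_card_eq (Fintype.card n + 1)
  have h5 := zm_pencil C A z T2 (by omega) (fun t ht => h4 t (by simpa using hT2 ht)) 0
  rwa [zero_smul, add_zero] at h5

end Matrix

end H300R3.LTS
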