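import Mathlib
import Pool.Agent.H300R3.LTS.Nil
import Pool.Agent.H300R3.LTS.Red

/-!
# Lie triple systems of matrices: a local test for the smallest multiplicity of the eigenvalue zero
-/

set_option autoImplicit false
set_option linter.unusedSectionVars false

open Module

namespace H300R3.LTS

variable {K : Type*} [Field K] {n : Type*} [Fintype n] [DecidableEq n]

/-- the product of two elements of the generalised null space of `ad A` is in it -/
theorem adm_mul (A : Matrix n n K) : ∀ (s N M : ℕ), N + M = s → ∀ Y Z : Matrix n n K,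
    ((adm A) ^ N) Y = 0 → ((adm A) ^ M) Z = 0 → ((adm A) ^ (N + M)) (Y * Z) = 0 := by
  intro s
  induction s with
  | zero =>
    intro N M h Y Z hY _
    obtain ⟨rfl, rfl⟩ : N = 0 ∧ M = 0 := by omega
    rw [pow_zero, Module.End.one_apply] at hY
    rw [hY, zero_mul, map_zero]
  | succ s ih =>
    intro N M h Y Z hY hZ
    rcases Nat.eq_zero_or_pos N with rfl | hN
    · rw [pow_zero, Module.End.one_apply] at hY
      rw [hY, zero_mul, map_zero]
    rcases Nat.eq_zero_or_pos M with rfl | hM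
    · rw [pow_zero, Module.End.one_apply] at hZ
      rw [hZ, mul_zero, map_zero]
    obtain ⟨N', rfl⟩ : ∃ N', N = N' + 1 := ⟨N - 1, by omega⟩
    obtain ⟨M', rfl⟩ : ∃ M', M = M' + 1 := ⟨M - 1, by omega⟩
    have hY' : ((adm A) ^ N') (adm A Y) = 0 := by
      rw [← Module.End.mul_apply, ← pow_succ]; exact hY
    have hZ' : ((adm A) ^ M') (adm A Z) = 0 := by
      rw [← Module.End.mul_apply, ← pow_succ]; exact hZ
    have e1 : N' + 1 + (M' + 1) = (N' + (M' + 1)) + 1 := by omega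
    have e2 : adm A (Y * Z) = adm A Y * Z + Y * adm A Z := by
      rw [adm_apply, adm_apply, adm_apply]
      noncomm_ring
    rw [e1, pow_succ, Module.End.mul_apply, e2, map_add,
      ih N' (M' + 1) (by omega) _ _ hY' hZ, zero_add]
    have e3 : N' + (M' + 1) = N' + 1 + M' := by omega
    rw [e3]
    exact ih (N' + 1) M' (by omega) _ _ hY hZ'

/-- the generalised null space of `ad A` -/
def gen0 (A : Matrix n n K) : Submodule K (Matrix n n K) where
  carrier := {Y | ∃ N : ℕ, ((adm A) ^ N) Y = 0}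
  zero_mem' := ⟨0, rfl⟩
  add_mem' := by
    rintro a b ⟨N, hN⟩ ⟨M, hM⟩
    refine ⟨N + M, ?_⟩
    rw [map_add]
    have h1 : ((adm A) ^ (N + M)) a = 0 := by
      rw [add_comm, pow_add, Module.End.mul_apply, hN, map_zero]
    have h2 : ((adm A) ^ (N + M)) b = 0 := by
      rw [pow_add, Module.End.mul_apply, hM, map_zero]
    rw [h1, h2, add_zero]
  smul_mem' := by
    rintro c a ⟨N, hN⟩
    exact ⟨N, by rw [map_smul, hN, smul_zero]⟩

theorem gen0_mul {A Y Z : Matrix n n K} (hY : Y ∈ gen0 A) (hZ : Z ∈ gen0 A) : Y * Z ∈ gen0 A := by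
  obtain ⟨N, hN⟩ := hY
  obtain ⟨M, hM⟩ := hZ
  exact ⟨N + M, adm_mul A _ N M rfl Y Z hN hM⟩

theorem gen0_br {A Y Z : Matrix n n K} (hY : Y ∈ gen0 A) (hZ : Z ∈ gen0 A) :
    Y * Z - Z * Y ∈ gen0 A := (gen0 A).sub_mem (gen0_mul hY hZ) (gen0_mul hZ hY)

/-- closed under `(X, Y, Z) ↦ [[X, Y], Z]` -/
def MTriple (V : Submodule K (Matrix n n K)) : Prop :=
  ∀ X ∈ V, ∀ Y ∈ V, ∀ Z ∈ V, (X * Y - Y * X) * Z - Z * (X * Y - Y * X) ∈ V

section nil

attribute [local instance 100] LieRing.ofAssociativeRing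

/-- if the local test holds then the null part acts nilpotently on the generalised kernel -/
theorem null_nil [CharZero K] {V : Submodule K (Matrix n n K)} (hV : MTriple V)
    {A P : Matrix n n K} (hP : Fit A P) {ι : Type*} (X : ι → Matrix n n K)
    (hX : Submodule.span K (Set.range X) = V ⊓ gen0 A) (T : Finset K)
    (hT : Fintype.card n < T.card)
    (htest : ∀ i j, ∀ t ∈ T, zm A ≤ zm (A + t • (X i + X j))) :
    ∀ h ∈ V ⊓ gen0 A, IsNilpotent (h * P) := by
  have hcomm : ∀ Y ∈ V ⊓ gen0 A, Commute Y P := by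
    rintro Y ⟨-, N, hN⟩
    exact hP.commute hN
  have hXm : ∀ i, X i ∈ V ⊓ gen0 A := by
    intro i
    rw [← hX]
    exact Submodule.subset_span ⟨i, rfl⟩
  -- the linear map `Y ↦ Y P` with values in the endomorphisms
  obtain ⟨e, he⟩ : ∃ e : Matrix n n K ≃ₐ[K] Module.End K (n → K), e = Matrix.toLinAlgEquiv' :=
    ⟨_, rfl⟩
  set Φ : Matrix n n K →ₗ[K] Module.End K (n → K) :=
    e.toLinearMap ∘ₗ LinearMap.mulRight K P with hΦ
  have hΦa : ∀ Y, Φ Y = e (Y * P) := fun Y => rfl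
  set U : Submodule K (Module.End K (n → K)) := (V ⊓ gen0 A).map Φ with hU
  have hUs : U = Submodule.span K (Set.range fun i => Φ (X i)) := by
    rw [hU, ← hX, Submodule.map_span, ← Set.range_comp]
    rfl
  have hbr : ∀ Y, Commute Y P → ∀ Z, Commute Z P →
      ⁅Φ Y, Φ Z⁆ = Φ (Y * Z - Z * Y) := by
    intro Y c1 Z c2
    rw [Ring.lie_def, hΦa, hΦa, hΦa, ← map_mul, ← map_mul, ← map_sub]
    congr 1
    rw [sub_mul, mul_assoc Y P, ← mul_assoc P Z, ← c2.eq, mul_assoc Z P, hP.idem, ← mul_assoc,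
      mul_assoc Z P, ← mul_assoc P Y, ← c1.eq, mul_assoc Y P, hP.idem, ← mul_assoc]
  have hcb : ∀ Y, Commute Y P → ∀ Z, Commute Z P → Commute (Y * Z - Z * Y) P := by
    intro Y c1 Z c2
    exact (c1.mul_left c2).sub_left (c2.mul_left c1)
  have hLTS : IsLTS U := by
    rintro _ ⟨x, hx, rfl⟩ _ ⟨y, hy, rfl⟩ _ ⟨z, hz, rfl⟩
    have cx := hcomm x hx
    have cy := hcomm y hy
    have cz := hcomm z hz
    rw [hbr x cx y cy, hbr _ (hcb x cx y cy) z cz]
    refine ⟨_, ⟨hV x hx.1 y hy.1 z hz.1, ?_⟩, rfl⟩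
    exact gen0_br (gen0_br hx.2 hy.2) hz.2
  have hnil := lts_nil hLTS hUs (by
    rintro _ ⟨i, rfl⟩ _ ⟨j, rfl⟩
    have h1 : IsNilpotent ((X i + X j) * P) :=
      hP.nilpotent_of_pencil ((hcomm _ (hXm i)).add_left (hcomm _ (hXm j))) T hT (htest i j)
    have h2 : Φ (X i) + Φ (X j) = e ((X i + X j) * P) := by
      rw [hΦa, hΦa, ← map_add, add_mul]
    change IsNilpotent (Φ (X i) + Φ (X j))
    rw [h2]
    exact h1.map e)
  intro h hh
  have h3 := hnil (Φ h) ⟨h, hh, rfl⟩
  rw [hΦa] at h3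
  have h4 := h3.map e.symm
  rwa [AlgEquiv.symm_apply_apply] at h4

/-- on the null part the multiplicity is at least that of `A` -/
theorem null_le [CharZero K] {V : Submodule K (Matrix n n K)} (hV : MTriple V)
    {A : Matrix n n K} {ι : Type*} (X : ι → Matrix n n K)
    (hX : Submodule.span K (Set.range X) = V ⊓ gen0 A) (T : Finset K)
    (hT : Fintype.card n < T.card)
    (htest : ∀ i j, ∀ t ∈ T, zm A ≤ zm (A + t • (X i + X j))) :
    ∀ h ∈ V ⊓ gen0 A, zm A ≤ zm h := by
  obtain ⟨P, hP⟩ := exists_fit A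
  intro h hh
  obtain ⟨m, hm⟩ := null_nil hV hP X hX T hT htest h hh
  have hc : Commute h P := by
    obtain ⟨-, N, hN⟩ := hh
    exact hP.commute hN
  have hPP : ∀ k : ℕ, P ^ (k + 1) = P := by
    intro k
    induction k with
    | zero => simp
    | succ k ih => rw [pow_succ, ih, hP.idem]
  have h1 : h ^ (m + 1) * P = 0 := by
    have h2 : (h * P) ^ (m + 1) = 0 := by rw [pow_succ, hm, zero_mul]
    rwa [hc.mul_pow, hPP] at h2
  rw [← hP.rk_eq]
  exact rk_le_zm hP.idem h1

end nil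

/-- **The local test decides the minimum.** -/
theorem local_global {K : Type*} [RCLike K] {n : Type*} [Fintype n] [DecidableEq n]
    {V : Submodule K (Matrix n n K)} (hV : MTriple V)
    {A : Matrix n n K} (hA : A ∈ V) {ι : Type*} (X : ι → Matrix n n K)
    (hX : Submodule.span K (Set.range X) = V ⊓ gen0 A) (T : Finset K)
    (hT : Fintype.card n < T.card)
    (htest : ∀ i j, ∀ t ∈ T, zm A ≤ zm (A + t • (X i + X j))) :
    ∀ C ∈ V, zm A ≤ zm C :=
  reduction V hV hA (zm A) fun h hh hN => null_le hV X hX T hT htest h ⟨hh, hN⟩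

end H300R3.LTS
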