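import Mathlib
import Pool.Agent.H300R3.LTS.Main

/-!
# The local test over subfields of the complex numbers
-/

set_option autoImplicit false
set_option linter.unusedSectionVars false

open Module

namespace H300R3.LTS

/-- It suffices to test the triple products of generators. -/
theorem mtriple_span {K : Type*} [Field K] {n : Type*} [Fintype n] [DecidableEq n]
    (s : Set (Matrix n n K))
    (h : ∀ x ∈ s, ∀ y ∈ s, ∀ z ∈ s,
      (x * y - y * x) * z - z * (x * y - y * x) ∈ Submodule.span K s) :
    MTriple (Submodule.span K s) := by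
  intro x hx
  induction hx using Submodule.span_induction with
  | mem x hx =>
    intro y hy
    induction hy using Submodule.span_induction with
    | mem y hy =>
      intro z hz
      induction hz using Submodule.span_induction with
      | mem z hz => exact h x hx y hy z hz
      | zero => simp
      | add a b _ _ h1 h2 =>
        convert Submodule.add_mem _ h1 h2 using 1
        noncomm_ring
      | smul c a _ h1 =>
        convert Submodule.smul_mem _ c h1 using 1
        simp only [mul_smul_comm, smul_mul_assoc, smul_sub]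
    | zero => intro z _; simp
    | add a b _ _ h1 h2 =>
      intro z hz
      convert Submodule.add_mem _ (h1 z hz) (h2 z hz) using 1
      noncomm_ring
    | smul c a _ h1 =>
      intro z hz
      convert Submodule.smul_mem _ c (h1 z hz) using 1
      simp only [mul_smul_comm, smul_mul_assoc, ← smul_sub]
  | zero => intro y _ z _; simp
  | add a b _ _ h1 h2 =>
    intro y hy z hz
    convert Submodule.add_mem _ (h1 y hy z hz) (h2 y hy z hz) using 1
    noncomm_ring
  | smul c a _ h1 =>
    intro y hy z hz
    convert Submodule.smul_mem _ c (h1 y hy z hz) using 1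
    simp only [mul_smul_comm, smul_mul_assoc, ← smul_sub]

section

variable {F : Type*} [Field F] {K : Type*} [Field K] [Algebra F K]
  {n : Type*} [Fintype n] [DecidableEq n]

/-- extension of scalars of matrices -/
noncomputable def mp (M : Matrix n n F) : Matrix n n K := M.map (algebraMap F K)

theorem mp_mul (M N : Matrix n n F) : (mp (M * N) : Matrix n n K) = mp M * mp N :=
  Matrix.map_mul

theorem mp_sub (M N : Matrix n n F) : (mp (M - N) : Matrix n n K) = mp M - mp N := by
  ext i j; simp [mp]

theorem mp_add (M N : Matrix n n F) : (mp (M + N) : Matrix n n K) = mp M + mp N := by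
  ext i j; simp [mp]

theorem mp_smul (c : F) (M : Matrix n n F) : (mp (c • M) : Matrix n n K) = algebraMap F K c • mp M := by
  ext i j; simp [mp]

theorem mp_zero : (mp (0 : Matrix n n F) : Matrix n n K) = 0 := by
  ext i j; simp [mp]

theorem zm_mp (C : Matrix n n F) : zm (mp C : Matrix n n K) = zm C := by
  rw [zm, zm, mp, Matrix.charpoly_map]
  have := Polynomial.eq_rootMultiplicity_map (p := C.charpoly) (algebraMap F K).injective 0
  rw [map_zero] at this
  exact this.symm

theorem mp_adm_pow (A Y : Matrix n n F) (N : ℕ) :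
    (mp (((adm A) ^ N) Y) : Matrix n n K) = ((adm (mp A : Matrix n n K)) ^ N) (mp Y) := by
  induction N generalizing Y with
  | zero => rfl
  | succ N ih =>
    rw [pow_succ, pow_succ, Module.End.mul_apply, Module.End.mul_apply, ih, adm_apply, adm_apply,
      mp_sub, mp_mul, mp_mul]

/-- apply a linear functional to all the entries -/
def mf (φ : K →ₗ[F] F) (Y : Matrix n n K) : Matrix n n F := Y.map φ

theorem mf_adm (φ : K →ₗ[F] F) (A : Matrix n n F) (Y : Matrix n n K) :
    mf φ (adm (mp A : Matrix n n K) Y) = adm A (mf φ Y) := by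
  rw [adm_apply, adm_apply]
  ext i j
  simp only [mf, mp, Matrix.map_apply, Matrix.sub_apply, Matrix.mul_apply, map_sub, map_sum]
  congr 1
  · refine Finset.sum_congr rfl fun k _ => ?_
    rw [← Algebra.smul_def, map_smul, smul_eq_mul]
  · refine Finset.sum_congr rfl fun k _ => ?_
    rw [mul_comm, ← Algebra.smul_def, map_smul, smul_eq_mul, mul_comm]

theorem mf_adm_pow (φ : K →ₗ[F] F) (A : Matrix n n F) (N : ℕ) (Y : Matrix n n K) :
    mf φ (((adm (mp A : Matrix n n K)) ^ N) Y) = ((adm A) ^ N) (mf φ Y) := by
  induction N generalizing Y with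
  | zero => rfl
  | succ N ih =>
    rw [pow_succ, pow_succ, Module.End.mul_apply, Module.End.mul_apply, ih, mf_adm]

theorem mf_mem (V : Submodule F (Matrix n n F)) {Y : Matrix n n K}
    (hY : Y ∈ Submodule.span K ((mp : Matrix n n F → Matrix n n K) '' (V : Set (Matrix n n F)))) :
    ∀ φ : K →ₗ[F] F, mf φ Y ∈ V := by
  induction hY using Submodule.span_induction with
  | mem x hx =>
    obtain ⟨v, hv, rfl⟩ := hx
    intro φ
    have : mf φ (mp v : Matrix n n K) = φ 1 • v := by
      ext i j
      simp only [mf, mp, Matrix.map_apply, Matrix.smul_apply, smul_eq_mul]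
      rw [Algebra.algebraMap_eq_smul_one, map_smul, smul_eq_mul, mul_comm]
    rw [this]
    exact V.smul_mem _ hv
  | zero =>
    intro φ
    have : mf φ (0 : Matrix n n K) = 0 := by ext i j; simp [mf]
    rw [this]
    exact V.zero_mem
  | add a b _ _ h1 h2 =>
    intro φ
    have : mf φ (a + b) = mf φ a + mf φ b := by ext i j; simp [mf]
    rw [this]
    exact V.add_mem (h1 φ) (h2 φ)
  | smul c a _ h1 =>
    intro φ
    have : mf φ (c • a) = mf (φ ∘ₗ LinearMap.mulLeft F c) a := by
      ext i j
      simp [mf]
    rw [this]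
    exact h1 _

/-- a matrix whose coordinate matrices are in the span of the `X i` is in the extended span -/
theorem mem_of_mf {ι : Type*} (X : ι → Matrix n n F) {Y : Matrix n n K}
    (h : ∀ φ : K →ₗ[F] F, mf φ Y ∈ Submodule.span F (Set.range X)) :
    Y ∈ Submodule.span K (Set.range fun i => (mp (X i) : Matrix n n K)) := by
  classical
  let b := Module.Basis.ofVectorSpace F K
  let S : Finset _ := Finset.univ.biUnion fun i : n => Finset.univ.biUnion fun j : n =>
    (b.repr (Y i j)).support
  have hY : Y = ∑ β ∈ S, (b β) • (mp (mf (b.coord β) Y) : Matrix n n K) := by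
    ext i j
    rw [Matrix.sum_apply]
    have h1 := b.linearCombination_repr (Y i j)
    rw [Finsupp.linearCombination_apply, Finsupp.sum] at h1
    have hsub : (b.repr (Y i j)).support ⊆ S := by
      intro β hβ
      exact Finset.mem_biUnion.2 ⟨i, Finset.mem_univ _, Finset.mem_biUnion.2
        ⟨j, Finset.mem_univ _, hβ⟩⟩
    rw [← h1]
    rw [Finset.sum_subset hsub (by
      intro β _ hβ
      rw [Finsupp.notMem_support_iff.1 hβ, zero_smul])]
    refine Finset.sum_congr rfl fun β _ => ?_
    simp only [Matrix.smul_apply, mp, mf, Matrix.map_apply, Module.Basis.coord_apply, smul_eq_mul]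
    rw [Algebra.smul_def, mul_comm]
  have hmp : ∀ Z ∈ Submodule.span F (Set.range X),
      (mp Z : Matrix n n K) ∈ Submodule.span K (Set.range fun i => (mp (X i) : Matrix n n K)) := by
    intro Z hZ
    induction hZ using Submodule.span_induction with
    | mem x hx =>
      obtain ⟨i, rfl⟩ := hx
      exact Submodule.subset_span ⟨i, rfl⟩
    | zero => rw [mp_zero]; exact Submodule.zero_mem _
    | add a b _ _ h1 h2 => rw [mp_add]; exact Submodule.add_mem _ h1 h2
    | smul c a _ h1 => rw [mp_smul]; exact Submodule.smul_mem _ _ h1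
  rw [hY]
  exact Submodule.sum_mem _ fun β _ => Submodule.smul_mem _ _ (hmp _ (h _))

end

/-- **The local test decides the minimum**, over every subfield of the complex numbers. -/
theorem local_global_sub {F : Type*} [Field F] (σ : F →+* ℂ) {n : Type*} [Fintype n]
    [DecidableEq n] {V : Submodule F (Matrix n n F)} (hV : MTriple V)
    {A : Matrix n n F} (hA : A ∈ V) {ι : Type*} (X : ι → Matrix n n F)
    (hX : Submodule.span F (Set.range X) = V ⊓ gen0 A) (T : Finset F)
    (hT : Fintype.card n < T.card)
    (htest : ∀ i j, ∀ t ∈ T, zm A ≤ zm (A + t • (X i + X j))) :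
    ∀ C ∈ V, zm A ≤ zm C := by
  classical
  letI : Algebra F ℂ := σ.toAlgebra
  set VK : Submodule ℂ (Matrix n n ℂ) :=
    Submodule.span ℂ ((mp : Matrix n n F → Matrix n n ℂ) '' (V : Set (Matrix n n F))) with hVK
  have hmem : ∀ v ∈ V, (mp v : Matrix n n ℂ) ∈ VK := fun v hv =>
    Submodule.subset_span ⟨v, hv, rfl⟩
  have hVK3 : MTriple VK := by
    apply mtriple_span
    rintro _ ⟨x, hx, rfl⟩ _ ⟨y, hy, rfl⟩ _ ⟨z, hz, rfl⟩
    rw [← mp_mul, ← mp_mul, ← mp_sub, ← mp_mul, ← mp_mul, ← mp_sub]
    exact hmem _ (hV x hx y hy z hz)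
  have hspan : Submodule.span ℂ (Set.range fun i => (mp (X i) : Matrix n n ℂ))
      = VK ⊓ gen0 (mp A : Matrix n n ℂ) := by
    apply le_antisymm
    · rw [Submodule.span_le]
      rintro _ ⟨i, rfl⟩
      have h1 : X i ∈ V ⊓ gen0 A := by
        rw [← hX]
        exact Submodule.subset_span ⟨i, rfl⟩
      obtain ⟨h2, N, h3⟩ := h1
      refine ⟨hmem _ h2, N, ?_⟩
      rw [← mp_adm_pow, h3, mp_zero]
    · rintro Y ⟨h1, N, h2⟩
      apply mem_of_mf
      intro φ
      rw [hX]
      refine ⟨mf_mem V h1 φ, N, ?_⟩
      rw [← mf_adm_pow, h2]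
      ext i j
      simp [mf]
  have hcard : (T.image σ).card = T.card := Finset.card_image_of_injective _ σ.injective
  have key := local_global (K := ℂ) hVK3 (hmem A hA) (fun i => (mp (X i) : Matrix n n ℂ)) hspan
    (T.image σ) (by rw [hcard]; exact hT) (by
      intro i j t ht
      obtain ⟨s, hs, rfl⟩ := Finset.mem_image.1 ht
      have e : (mp A : Matrix n n ℂ) + σ s • (mp (X i) + mp (X j))
          = mp (A + s • (X i + X j)) := by
        rw [mp_add, mp_smul, mp_add]
        rfl
      rw [e, zm_mp, zm_mp]
      exact htest i j s hs)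
  intro C hC
  have := key _ (hmem C hC)
  rwa [zm_mp, zm_mp] at this

end H300R3.LTS
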